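import Pool.Agent.Helper14.LK.St
import Pool.Agent.Helper14.LK.Basic

/-!
# Project LK, module POI: compactly supported primitives in dimension at least two
-/

set_option autoImplicit false

namespace Pool.Agent.Helper79.LK

open Pool.Agent.Helper14.LK
open scoped ContDiff Topology
open MeasureTheory Set Filter

/-- the outside of a ball is preconnected in dimension at least two -/
theorem preconn {V : Type} [NormedAddCommGroup V] [NormedSpace ℝ V]
    (h2 : 1 < Module.rank ℝ V) (R : ℝ) (hR : 0 < R) : IsPreconnected {v : V | R < ‖v‖} := by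
  have h0 : IsPreconnected ({0}ᶜ : Set V) := (isConnected_compl_singleton_of_one_lt_rank h2 0).isPreconnected
  have himg : {v : V | R < ‖v‖} = (fun v : V => ((‖v‖ + R) / ‖v‖) • v) '' ({0}ᶜ : Set V) := by
    ext w
    constructor
    · intro hw
      have hw' : R < ‖w‖ := hw
      have hwp : 0 < ‖w‖ := lt_trans hR hw'
      have hd : 0 < ‖w‖ - R := sub_pos.mpr hw'
      have hn : ‖((‖w‖ - R) / ‖w‖) • w‖ = ‖w‖ - R := by
        rw [norm_smul, Real.norm_eq_abs, abs_of_pos (div_pos hd hwp)]
        field_simp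
      refine ⟨((‖w‖ - R) / ‖w‖) • w, ?_, ?_⟩
      · intro h
        have h' : ((‖w‖ - R) / ‖w‖) • w = 0 := h
        rw [h', norm_zero] at hn
        linarith
      · show ((‖((‖w‖ - R) / ‖w‖) • w‖ + R) / ‖((‖w‖ - R) / ‖w‖) • w‖) • (((‖w‖ - R) / ‖w‖) • w) = w
        rw [hn, smul_smul]
        have : (‖w‖ - R + R) / (‖w‖ - R) * ((‖w‖ - R) / ‖w‖) = 1 := by
          field_simp
          ring
        rw [this, one_smul]
    · rintro ⟨v, hv, rfl⟩
      have hv0 : v ≠ 0 := hv
      have hvp : 0 < ‖v‖ := norm_pos_iff.mpr hv0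
      show R < ‖((‖v‖ + R) / ‖v‖) • v‖
      rw [norm_smul, Real.norm_eq_abs, abs_of_pos (div_pos (by linarith) hvp)]
      have : (‖v‖ + R) / ‖v‖ * ‖v‖ = ‖v‖ + R := by field_simp
      rw [this]
      linarith
  rw [himg]
  apply h0.image
  intro v hv
  have hv0 : v ≠ 0 := hv
  have hvn : ‖v‖ ≠ 0 := norm_ne_zero_iff.mpr hv0
  apply ContinuousAt.continuousWithinAt
  apply ContinuousAt.smul _ continuousAt_id
  exact (continuous_norm.continuousAt.add continuousAt_const).div continuous_norm.continuousAt hvn

theorem hPOI (hPO0 : StPO0) : StPOI := by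
  intro V _ _ _ hdim α hα hcl R hR
  rcases le_or_gt R 0 with hR0 | hR0
  · have hz : ∀ t v, α t v = 0 := fun t v => hR t v (le_trans hR0 (norm_nonneg v))
    refine ⟨fun _ _ => 0, contDiff_const, ?_, fun _ _ _ => rfl⟩
    intro t v
    rw [hz t v]
    exact fderiv_const_apply (0 : ℝ)
  · obtain ⟨h₀, hs, hd⟩ := hPO0 V α hα hcl
    have hrank : 1 < Module.rank ℝ V := by
      have : ((1 : ℕ) : Cardinal) < Module.rank ℝ V := by
        rw [← Module.finrank_eq_rank]
        exact_mod_cast (by omega : 1 < Module.finrank ℝ V)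
      simpa using this
    have : Nontrivial V := Module.nontrivial_of_finrank_pos (R := ℝ) (by omega)
    obtain ⟨v₁, hv₁⟩ := exists_norm_eq V (c := R + 1) (by linarith)
    have hst : ∀ t, ContDiff ℝ ∞ (h₀ t) := by
      intro t
      exact hs.comp (contDiff_const.prodMk contDiff_id)
    have hopen : IsOpen {v : V | R < ‖v‖} := isOpen_lt continuous_const continuous_norm
    have hconst : ∀ t v, R < ‖v‖ → h₀ t v = h₀ t v₁ := by
      intro t v hv
      refine hopen.is_const_of_fderiv_eq_zero (𝕜 := ℝ) (preconn hrank R hR0)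
        ((hst t).differentiable (by simp)).differentiableOn ?_ hv ?_
      · intro w hw
        have hw' : R < ‖w‖ := hw
        simp only [Pi.zero_apply]
        rw [hd t w]
        exact hR t w hw'.le
      · show R < ‖v₁‖
        rw [hv₁]
        linarith
    have hconst' : ∀ t v, R ≤ ‖v‖ → h₀ t v = h₀ t v₁ := by
      intro t v hv
      have hclo : IsClosed {w : V | h₀ t w = h₀ t v₁} := isClosed_eq (hst t).continuous continuous_const
      have hsub : {w : V | R < ‖w‖} ⊆ {w : V | h₀ t w = h₀ t v₁} := fun w hw => hconst t w hw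
      have hmem : v ∈ closure {w : V | R < ‖w‖} := by
        have hlim : Tendsto (fun δ : ℝ => (1 + δ) • v) (𝓝[>] (0 : ℝ)) (𝓝 v) := by
          have hc : Continuous (fun δ : ℝ => (1 + δ) • v) := (continuous_const.add continuous_id).smul continuous_const
          have := (hc.tendsto 0).mono_left (nhdsWithin_le_nhds (s := Ioi (0 : ℝ)))
          simpa using this
        refine mem_closure_of_tendsto hlim ?_
        filter_upwards [self_mem_nhdsWithin] with δ hδ
        have hδ' : 0 < δ := hδ
        show R < ‖(1 + δ) • v‖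
        rw [norm_smul, Real.norm_eq_abs, abs_of_pos (by linarith)]
        nlinarith
      exact closure_minimal hsub hclo hmem
    refine ⟨fun t v => h₀ t v - h₀ t v₁, ?_, ?_, ?_⟩
    · have h1 : ContDiff ℝ ∞ (fun p : ℝ × V => h₀ p.1 p.2) := hs
      have h2 : ContDiff ℝ ∞ (fun p : ℝ × V => h₀ p.1 v₁) :=
        hs.comp (contDiff_fst.prodMk contDiff_const)
      exact h1.sub h2
    · intro t v
      have h3 : fderiv ℝ (fun v => h₀ t v - h₀ t v₁) v = fderiv ℝ (h₀ t) v := by
        rw [fderiv_sub_const]
      rw [h3]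
      exact hd t v
    · intro t v hv
      show h₀ t v - h₀ t v₁ = 0
      rw [hconst' t v hv, sub_self]

end Pool.Agent.Helper79.LK
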